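import Mathlib

/-!
# An indecomposable 2-group realizable in characteristic 256 but not in characteristic 2

The group is the unit group of the ring of quaternions with coefficients in `ℤ/256`, i.e. of the
Lipschitz order modulo `256`.
-/

open Quaternion

namespace Pool.Agent.Results.MP_aafbbc_al.LipschitzUnits

/-- `G` is realizable in characteristic `n`: it is the unit group of a finite ring of
characteristic `n`. -/
def Realizable (G : Type) [Group G] (n : ℕ) : Prop :=
  ∃ (R : Type) (_ : Ring R) (_ : Finite R) (_ : CharP R n), Nonempty (Rˣ ≃* G)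

/-- `G` is nontrivial and not isomorphic to a direct product of two nontrivial groups. -/
def Indecomposable (G : Type) [Group G] : Prop :=
  Nontrivial G ∧ ∀ (A B : Type) [Group A] [Group B], Nonempty (G ≃* A × B) →
    Subsingleton A ∨ Subsingleton B

section char2

variable {S : Type*} [Ring S] [CharP S 2]

omit [CharP S 2] in
lemma char2_card [Finite S] (x : S) (h32 : x ^ 32 ≠ 0) (hnil : IsNilpotent x) :
    2 ^ 32 ≤ Nat.card Sˣ := by
  classical
  obtain ⟨n, hn, hmin⟩ : ∃ n, x ^ n = 0 ∧ ∀ m < n, x ^ m ≠ 0 :=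
    ⟨Nat.find hnil, Nat.find_spec hnil, fun m hm => Nat.find_min hnil hm⟩
  have hn33 : 33 ≤ n := by
    by_contra h
    exact h32 (pow_eq_zero_of_le (by omega) hn)
  let f : (Fin (n - 1) → ZMod 2) → S := fun c => ∑ i : Fin (n - 1), ((c i).val : S) * x ^ (i.1 + 1)
  -- the nilpotent part
  have hcomm : ∀ c, Commute x (f c) := by
    intro c
    refine Commute.sum_right _ _ _ fun i _ => ?_
    exact (Nat.cast_commute _ _).symm.mul_right ((Commute.refl x).pow_right _)
  have hfx : ∀ c, ∃ y, Commute x y ∧ f c = x * y := by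
    intro c
    refine ⟨∑ i : Fin (n - 1), ((c i).val : S) * x ^ i.1, ?_, ?_⟩
    · refine Commute.sum_right _ _ _ fun i _ => ?_
      exact (Nat.cast_commute _ _).symm.mul_right ((Commute.refl x).pow_right _)
    · rw [Finset.mul_sum]
      refine Finset.sum_congr rfl fun i _ => ?_
      rw [pow_succ', ← mul_assoc, ← mul_assoc, Nat.cast_comm]
  have hnilf : ∀ c, IsNilpotent (f c) := by
    intro c
    obtain ⟨y, hy, e⟩ := hfx c
    exact ⟨n, by rw [e, hy.mul_pow, hn, zero_mul]⟩
  have hinj : Function.Injective f := by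
    intro c c' h
    by_contra hne
    have hex : ∃ i : ℕ, ∃ hi : i < n - 1, c ⟨i, hi⟩ ≠ c' ⟨i, hi⟩ := by
      by_contra hcon
      push Not at hcon
      exact hne (funext fun i => hcon i.1 i.2)
    let i := Nat.find hex
    obtain ⟨hi, hci⟩ := Nat.find_spec hex
    have hlt : ∀ j (hj : j < n - 1), j < i → c ⟨j, hj⟩ = c' ⟨j, hj⟩ := by
      intro j hj hji
      by_contra hcon
      exact Nat.find_min hex hji ⟨hj, hcon⟩
    have h1 : (f c - f c') * x ^ (n - 2 - i) = 0 := by rw [h, sub_self, zero_mul]
    have h2 : (f c - f c') * x ^ (n - 2 - i)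
        = (((c ⟨i, hi⟩).val : S) - ((c' ⟨i, hi⟩).val : S)) * x ^ (n - 1) := by
      rw [← Finset.sum_sub_distrib, Finset.sum_mul, Finset.sum_eq_single (⟨i, hi⟩ : Fin (n - 1))]
      · rw [← sub_mul, mul_assoc, ← pow_add]
        congr 2
        change i + 1 + (n - 2 - i) = n - 1
        omega
      · rintro ⟨j, hj⟩ _ hji
        rcases lt_trichotomy j i with h3 | h3 | h3
        · rw [hlt j hj h3, sub_self, zero_mul]
        · exact absurd (Fin.ext h3) hji
        · rw [← sub_mul, mul_assoc, ← pow_add]
          rw [pow_eq_zero_of_le (m := n) _ hn, mul_zero]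
          change n ≤ j + 1 + (n - 2 - i)
          omega
      · intro h; exact absurd (Finset.mem_univ _) h
    rw [h2] at h1
    have h2' : ∀ a b : ZMod 2, a ≠ b → ((a.val : S) - (b.val : S)) = 1 ∨
        ((a.val : S) - (b.val : S)) = -1 := by
      intro a b hab
      have hab' : (a.val = 1 ∧ b.val = 0) ∨ (a.val = 0 ∧ b.val = 1) := by
        revert a b; decide
      rcases hab' with ⟨h, h'⟩ | ⟨h, h'⟩
      · left; simp [h, h']
      · right; simp [h, h']
    rcases h2' _ _ hci with h3 | h3
    · rw [h3, one_mul] at h1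
      exact hmin (n - 1) (by omega) h1
    · rw [h3, neg_one_mul, neg_eq_zero] at h1
      exact hmin (n - 1) (by omega) h1
  let g : (Fin (n - 1) → ZMod 2) → Sˣ := fun c => (hnilf c).isUnit_one_add.unit
  have hg : Function.Injective g := by
    intro c c' h
    apply hinj
    have := congrArg (fun u : Sˣ => (u : S)) h
    simpa [g] using this
  have hc := Nat.card_le_card_of_injective g hg
  rw [Nat.card_fun, Nat.card_eq_fintype_card, Nat.card_eq_fintype_card, Fintype.card_fin,
    ZMod.card] at hc
  exact le_trans (Nat.pow_le_pow_right (by norm_num) (by omega)) hc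

lemma char2_units [Finite S] (u : Sˣ) (h64 : u ^ 64 = 1) (h32 : u ^ 32 ≠ 1) :
    2 ^ 32 ≤ Nat.card Sˣ := by
  have h64' : (u : S) ^ 64 = 1 := by
    have := congrArg (fun u : Sˣ => (u : S)) h64
    simpa using this
  have h32' : (u : S) ^ 32 ≠ 1 := by
    intro h
    apply h32
    ext
    simpa using h
  have hc : ∀ k : ℕ, ((u : S) - 1) ^ (2 ^ k) = (u : S) ^ (2 ^ k) - 1 := by
    intro k
    have : Fact (Nat.Prime 2) := ⟨Nat.prime_two⟩
    rw [sub_pow_char_pow_of_commute _ _ (Commute.one_right _), one_pow]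
  apply char2_card ((u : S) - 1)
  · have := hc 5
    norm_num at this
    rw [this]
    exact sub_ne_zero.2 h32'
  · refine ⟨64, ?_⟩
    have := hc 6
    norm_num at this
    rw [this, h64', sub_self]

end char2

/-- the coefficient ring -/
abbrev Z := ZMod 256

/-- reduction modulo `2` -/
def φ : Z →+* ZMod 2 := ZMod.castHom (by norm_num : 2 ∣ 256) (ZMod 2)

set_option maxRecDepth 100000 in
lemma φ_zero (z : Z) (h : φ z = 0) : ∃ w, z = 2 * w := by
  revert z; decide +kernel

set_option maxRecDepth 100000 in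
lemma φ_one (z : Z) (h : φ z = 1) : ∃ w : Z, z * w = 1 := by
  revert z; decide +kernel

set_option maxRecDepth 100000 in
lemma two_mul_eq_zero (z : Z) (h : 2 * z = 0) : ∃ w, z = 128 * w := by
  revert z; decide +kernel

set_option maxRecDepth 100000 in
lemma φ_of_two_mul (z : Z) (h : 2 * z = 0) : φ z = 0 := by
  revert z; decide +kernel

set_option maxRecDepth 100000 in
lemma odd_mul_128 (z : Z) (h : φ z = 1) : z * 128 = 128 := by
  revert z; decide +kernel

set_option maxRecDepth 100000 in
lemma scalar_gen (z : Z) (h : φ z = 1) : ∃ k : Fin 64, z = 5 ^ (k : ℕ) ∨ z = - 5 ^ (k : ℕ) := by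
  revert z; decide +kernel

/-- the ring: quaternions with coefficients in `ℤ/256` -/
abbrev R := Quaternion Z

/-- its group of units -/
abbrev G := Rˣ

instance : Finite R := Finite.of_equiv _ (Quaternion.equivProd Z).symm

instance : CharP R 256 := charP_of_injective_algebraMap (R := Z) Quaternion.algebraMap_injective 256

lemma card_G : Nat.card G < 2 ^ 32 := by
  have h1 : Nat.card R = 2 ^ 32 := by
    rw [Nat.card_congr (Quaternion.equivProd Z)]
    simp
  rw [← h1]
  have hinj : Function.Injective (fun u : G => (u : R)) := Units.val_injective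
  refine lt_of_le_of_ne (Nat.card_le_card_of_injective _ hinj) ?_
  intro h
  have hs := (Function.Injective.bijective_of_nat_card_le hinj h.ge).2
  obtain ⟨u, hu⟩ := hs 0
  have : (u : R) * ((u⁻¹ : G) : R) = 1 := u.mul_inv
  rw [show (u : R) = 0 from hu, zero_mul] at this
  have h2 := congrArg QuaternionAlgebra.re this
  simp at h2
  exact absurd h2 (by decide)

/-- parity of the imaginary part -/
def P (u : R) : ZMod 2 × ZMod 2 × ZMod 2 := (φ u.imI, φ u.imJ, φ u.imK)

lemma unit_parity (u : G) :
    φ (u : R).re + φ (u : R).imI + φ (u : R).imJ + φ (u : R).imK = 1 := by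
  have h1 : IsUnit (Quaternion.normSq (u : R)) := u.isUnit.map Quaternion.normSq
  have h2 : IsUnit (φ (Quaternion.normSq (u : R))) := h1.map φ
  have h3 : ∀ z : ZMod 2, IsUnit z → z = 1 := by
    intro z hz
    have : z ≠ 0 := hz.ne_zero
    revert z; decide
  have h4 := h3 _ h2
  rw [Quaternion.normSq_def', map_add, map_add, map_add, map_pow, map_pow, map_pow, map_pow] at h4
  have h5 : ∀ z : ZMod 2, z ^ 2 = z := by decide
  simpa only [h5] using h4

lemma P_mul_left (u v : G) (hu : P u = 0) : P ((u : R) * v) = P v := by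
  have h := unit_parity u
  simp only [P, Prod.mk_eq_zero] at hu
  obtain ⟨h1, h2, h3⟩ := hu
  rw [h1, h2, h3] at h
  simp only [add_zero] at h
  simp only [P, imI_mul, imJ_mul, imK_mul, map_add, map_sub, map_mul, h1, h2, h3, h]
  simp

lemma P_mul_right (u v : G) (hv : P v = 0) : P ((u : R) * v) = P u := by
  have h := unit_parity v
  simp only [P, Prod.mk_eq_zero] at hv
  obtain ⟨h1, h2, h3⟩ := hv
  rw [h1, h2, h3] at h
  simp only [add_zero] at h
  simp only [P, imI_mul, imJ_mul, imK_mul, map_add, map_sub, map_mul, h1, h2, h3, h]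
  simp

lemma P_mul_same (u v : G) (h : P u = P v) : P ((u : R) * v) = 0 := by
  have hu := unit_parity u
  have hv := unit_parity v
  simp only [P, Prod.mk.injEq] at h
  obtain ⟨h1, h2, h3⟩ := h
  rw [h1, h2, h3] at hu
  simp only [P, imI_mul, imJ_mul, imK_mul, map_add, map_sub, map_mul, h1, h2, h3, Prod.mk_eq_zero]
  revert hu hv
  generalize φ (u : R).re = a
  generalize φ (v : R).re = b
  generalize φ (v : R).imI = c
  generalize φ (v : R).imJ = d
  generalize φ (v : R).imK = e
  revert a b c d e
  decide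

lemma comm_eqs (u v : R) (h : u * v = v * u) :
    2 * (u.imJ * v.imK - u.imK * v.imJ) = 0 ∧ 2 * (u.imK * v.imI - u.imI * v.imK) = 0 ∧
      2 * (u.imI * v.imJ - u.imJ * v.imI) = 0 := by
  have h1 := congrArg QuaternionAlgebra.imI h
  have h2 := congrArg QuaternionAlgebra.imJ h
  have h3 := congrArg QuaternionAlgebra.imK h
  simp only [imI_mul, imJ_mul, imK_mul] at h1 h2 h3
  refine ⟨?_, ?_, ?_⟩
  · linear_combination h1
  · linear_combination h2
  · linear_combination h3

lemma comm_P (u v : R) (h : u * v = v * u) : P u = 0 ∨ P v = 0 ∨ P u = P v := by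
  obtain ⟨h1, h2, h3⟩ := comm_eqs u v h
  have e1 := φ_of_two_mul _ h1
  have e2 := φ_of_two_mul _ h2
  have e3 := φ_of_two_mul _ h3
  simp only [map_sub, map_mul] at e1 e2 e3
  simp only [P, Prod.mk_eq_zero, Prod.mk.injEq]
  revert e1 e2 e3
  generalize φ u.imI = a
  generalize φ u.imJ = b
  generalize φ u.imK = c
  generalize φ v.imI = d
  generalize φ v.imJ = e
  generalize φ v.imK = f
  revert a b c d e f
  decide

/-- a quaternion given by its coordinates -/
def mk (a b c d : Z) : R := ⟨a, b, c, d⟩

@[simp] lemma mk_re (a b c d : Z) : (mk a b c d).re = a := rfl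
@[simp] lemma mk_imI (a b c d : Z) : (mk a b c d).imI = b := rfl
@[simp] lemma mk_imJ (a b c d : Z) : (mk a b c d).imJ = c := rfl
@[simp] lemma mk_imK (a b c d : Z) : (mk a b c d).imK = d := rfl

/-- the unit `i` -/
def uI : G := ⟨mk 0 1 0 0, mk 0 (-1) 0 0, by ext <;> simp, by ext <;> simp⟩
/-- the unit `j` -/
def uJ : G := ⟨mk 0 0 1 0, mk 0 0 (-1) 0, by ext <;> simp, by ext <;> simp⟩
/-- the unit `2 + i` -/
def uT : G := ⟨mk 2 1 0 0, mk 154 51 0 0, by ext <;> simp <;> decide, by ext <;> simp <;> decide⟩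
/-- the unit `5` -/
def u5 : G := ⟨mk 5 0 0 0, mk 205 0 0 0, by ext <;> simp <;> decide, by ext <;> simp <;> decide⟩

lemma exists_two_mul (x : R) (h : P x = 0) (h0 : φ x.re = 1) : ∃ y : R, x = 1 + 2 * y := by
  simp only [P, Prod.mk_eq_zero] at h
  obtain ⟨h1, h2, h3⟩ := h
  have h0' : φ (x.re - 1) = 0 := by rw [map_sub, h0, map_one, sub_self]
  obtain ⟨a, ha⟩ := φ_zero _ h0'
  obtain ⟨b, hb⟩ := φ_zero _ h1
  obtain ⟨c, hc⟩ := φ_zero _ h2
  obtain ⟨d, hd⟩ := φ_zero _ h3
  refine ⟨mk a b c d, ?_⟩
  have e : (2 : R) * mk a b c d = mk (2 * a) (2 * b) (2 * c) (2 * d) := by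
    rw [two_mul]; ext <;> simp <;> ring
  rw [e]
  ext
  · simp only [re_add, mk_re, re_one]; linear_combination ha
  · simp only [imI_add, mk_imI, imI_one]; linear_combination hb
  · simp only [imJ_add, mk_imJ, imJ_one]; linear_combination hc
  · simp only [imK_add, mk_imK, imK_one]; linear_combination hd

lemma pow_two_pow (u : G) (s : ℕ) : ∃ y : R, (u : R) ^ 2 ^ (s + 1) = 1 + 2 ^ (s + 1) * y := by
  induction s with
  | zero =>
    have h1 : P ((u : R) * u) = 0 := P_mul_same u u rfl
    have h2 := unit_parity (u * u)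
    rw [Units.val_mul] at h2
    obtain ⟨e1, e2, e3⟩ : φ ((u : R) * u).imI = 0 ∧ φ ((u : R) * u).imJ = 0 ∧
        φ ((u : R) * u).imK = 0 := by simpa only [P, Prod.mk_eq_zero] using h1
    rw [e1, e2, e3] at h2
    obtain ⟨y, hy⟩ := exists_two_mul _ h1 (by simpa using h2)
    exact ⟨y, by rw [zero_add, pow_one, pow_two, hy, pow_one]⟩
  | succ s ih =>
    obtain ⟨y, hy⟩ := ih
    refine ⟨y + 2 ^ s * y ^ 2, ?_⟩
    rw [pow_succ 2 (s + 1), pow_mul, hy]
    have h2 : y * (2 : R) ^ s = 2 ^ s * y := (Nat.commute_cast y 2).pow_right s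
    have hy2 : y * 2 = 2 * y := by rw [two_mul, mul_two]
    have e1 : (2 : R) ^ (s + 1) = 2 * 2 ^ s := pow_succ' _ _
    have e3 : (2 : R) ^ (s + 1 + 1) = 2 * (2 * 2 ^ s) := by rw [pow_succ', e1]
    rw [e3, e1, pow_two]
    have hT2 : (2 : R) ^ s * 2 = 2 * 2 ^ s := by rw [← pow_succ, ← pow_succ']
    generalize (2 : R) ^ s = T at *
    calc (1 + 2 * T * y) * (1 + 2 * T * y)
        = 1 + 2 * (2 * T * y) + 2 * T * (y * 2) * T * y := by noncomm_ring
      _ = 1 + 2 * (2 * T * y) + 2 * (T * 2) * (y * T) * y := by rw [hy2]; noncomm_ring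
      _ = 1 + 2 * (2 * T * y) + 2 * (2 * T) * (T * y) * y := by rw [hT2, h2]
      _ = _ := by
        rw [pow_two]
        noncomm_ring

lemma exponent (u : G) : u ^ 256 = 1 := by
  obtain ⟨y, hy⟩ := pow_two_pow u 7
  apply Units.ext
  have h : (2 : R) ^ (7 + 1) = 0 := by
    have := CharP.cast_eq_zero R 256
    norm_num
    exact_mod_cast this
  rw [h, zero_mul, add_zero] at hy
  norm_num at hy
  simpa using hy

/-- the subgroup generated by the squares -/
def N : Subgroup G := Subgroup.closure {y | ∃ x : G, y = x * x}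

lemma sq_mem (x : G) : x * x ∈ N := Subgroup.subset_closure ⟨x, rfl⟩

/-- scalar units -/
def sc : Zˣ →* G := Units.map (algebraMap Z R : Z →* R)

lemma neg_one_mem : (-1 : G) ∈ N := by
  have : uI * uI = -1 := by
    ext <;> simp [uI]
  rw [← this]; exact sq_mem _

lemma u5_mem : u5 ∈ N := by
  have : u5 = (uT * uJ⁻¹) * (uT * uJ⁻¹) * (uJ * uJ) := by
    have e : uJ⁻¹ = ⟨mk 0 0 (-1) 0, mk 0 0 1 0, uJ.inv_val, uJ.val_inv⟩ := rfl
    rw [e]
    ext <;> simp [uT, uJ, u5] <;> decide
  rw [this]
  exact N.mul_mem (sq_mem _) (sq_mem _)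

lemma scalar_mem (g : G) (h1 : (g : R).imI = 0) (h2 : (g : R).imJ = 0) (h3 : (g : R).imK = 0) :
    g ∈ N := by
  have hp := unit_parity g
  rw [h1, h2, h3] at hp
  simp only [map_zero, add_zero] at hp
  obtain ⟨k, hk⟩ := scalar_gen _ hp
  have h5 : ∀ k : ℕ, ((u5 ^ k : G) : R) = mk (5 ^ k) 0 0 0 := by
    intro k
    induction k with
    | zero => ext <;> simp
    | succ k ih =>
      rw [pow_succ, Units.val_mul, ih]
      ext <;> simp [u5, pow_succ]
  rcases hk with hk | hk
  · have : g = u5 ^ (k : ℕ) := by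
      apply Units.ext
      rw [h5]
      ext
      · simpa using hk
      · simpa using h1
      · simpa using h2
      · simpa using h3
    rw [this]
    exact N.pow_mem u5_mem _
  · have : g = (-1) * u5 ^ (k : ℕ) := by
      apply Units.ext
      rw [Units.val_mul, h5]
      ext
      · simpa using hk
      · simpa using h1
      · simpa using h2
      · simpa using h3
    rw [this]
    exact N.mul_mem neg_one_mem (N.pow_mem u5_mem _)

lemma central_mem (g : G) (h1 : 2 * (g : R).imI = 0) (h2 : 2 * (g : R).imJ = 0)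
    (h3 : 2 * (g : R).imK = 0) : g ∈ N := by
  have hp := unit_parity g
  rw [φ_of_two_mul _ h1, φ_of_two_mul _ h2, φ_of_two_mul _ h3] at hp
  simp only [add_zero] at hp
  obtain ⟨p, hp'⟩ := two_mul_eq_zero _ h1
  obtain ⟨q, hq'⟩ := two_mul_eq_zero _ h2
  obtain ⟨r, hr'⟩ := two_mul_eq_zero _ h3
  have h4096 : (64 : Z) * 64 = 0 := by decide
  have h128 : (64 : Z) + 64 = 128 := by decide
  let h : G := ⟨mk 1 (64 * p) (64 * q) (64 * r), mk 1 (-(64 * p)) (-(64 * q)) (-(64 * r)), by
    ext
    · simp; linear_combination (p * p + q * q + r * r) * h4096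
    · simp
      ring
    · simp
      ring
    · simp
      ring, by
    ext
    · simp; linear_combination (p * p + q * q + r * r) * h4096
    · simp
      ring
    · simp
      ring
    · simp
      ring⟩
  have hodd := odd_mul_128 _ hp
  have h256 : (128 : Z) + 128 = 0 := by decide
  have hinv : ((h⁻¹ : G) : R) = mk 1 (-(64 * p)) (-(64 * q)) (-(64 * r)) := rfl
  have hinv2 : ((h⁻¹ * h⁻¹ : G) : R) = mk 1 (128 * p) (128 * q) (128 * r) := by
    rw [Units.val_mul, hinv]
    ext
    · simp; linear_combination (-(p * p + q * q + r * r)) * h4096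
    · simp; linear_combination (-p) * h128 - p * h256
    · simp; linear_combination (-q) * h128 - q * h256
    · simp; linear_combination (-r) * h128 - r * h256
  have key : (g * (h⁻¹ * h⁻¹)) ∈ N := by
    apply scalar_mem
    · rw [Units.val_mul, hinv2]
      simp only [imI_mul, mk_re, mk_imI, mk_imJ, mk_imK, hp', hq', hr']
      linear_combination p * hodd + p * h256
    · rw [Units.val_mul, hinv2]
      simp only [imJ_mul, mk_re, mk_imI, mk_imJ, mk_imK, hp', hq', hr']
      linear_combination q * hodd + q * h256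
    · rw [Units.val_mul, hinv2]
      simp only [imK_mul, mk_re, mk_imI, mk_imJ, mk_imK, hp', hq', hr']
      linear_combination r * hodd + r * h256
  have := N.mul_mem key (sq_mem h)
  have e : g * (h⁻¹ * h⁻¹) * (h * h) = g := by group
  rwa [e] at this

lemma central_comm (g : G) (h1 : 2 * (g : R).imI = 0) (h2 : 2 * (g : R).imJ = 0)
    (h3 : 2 * (g : R).imK = 0) (v : G) : g * v = v * g := by
  apply Units.ext
  rw [Units.val_mul, Units.val_mul]
  ext
  · simp only [re_mul]; ring
  · simp only [imI_mul]; linear_combination (v : R).imK * h2 - (v : R).imJ * h3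
  · simp only [imJ_mul]; linear_combination (v : R).imI * h3 - (v : R).imK * h1
  · simp only [imK_mul]; linear_combination (v : R).imJ * h1 - (v : R).imI * h2

/-- an element commuting with something congruent to `i` and something congruent to `j`
modulo `2` -/
lemma central_of (g a b : G) (ha : P a = (1, 0, 0)) (hb : P b = (0, 1, 0))
    (hga : g * a = a * g) (hgb : g * b = b * g) :
    2 * (g : R).imI = 0 ∧ 2 * (g : R).imJ = 0 ∧ 2 * (g : R).imK = 0 := by
  simp only [P, Prod.mk.injEq] at ha hb
  obtain ⟨ha1, ha2, ha3⟩ := ha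
  obtain ⟨hb1, hb2, hb3⟩ := hb
  have e1 : (g : R) * a = a * g := by rw [← Units.val_mul, hga, Units.val_mul]
  have e2 : (g : R) * b = b * g := by rw [← Units.val_mul, hgb, Units.val_mul]
  obtain ⟨a1, a2, a3⟩ := comm_eqs _ _ e1
  obtain ⟨b1, b2, b3⟩ := comm_eqs _ _ e2
  have hdet : φ ((a : R).imI * (b : R).imJ - (a : R).imJ * (b : R).imI) = 1 := by
    rw [map_sub, map_mul, map_mul, ha1, ha2, hb1, hb2]; simp
  obtain ⟨w, hw⟩ := φ_one _ hdet
  obtain ⟨w', hw'⟩ := φ_one _ ha1
  have hI : 2 * (g : R).imI = 0 := by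
    linear_combination (-2 * (g : R).imI) * hw + (w * (a : R).imI) * b3 -
      (w * (b : R).imI) * a3
  refine ⟨hI, ?_, ?_⟩
  · linear_combination (-2 * (g : R).imJ) * hw' + (w' * (a : R).imJ) * hI - w' * a3
  · linear_combination (-2 * (g : R).imK) * hw' + (w' * (a : R).imK) * hI + w' * a2

lemma P_uI : P uI = (1, 0, 0) := by simp [P, uI]
lemma P_uJ : P uJ = (0, 1, 0) := by simp [P, uJ]

section decomposition

variable {A B : Type} [Group A] [Group B] (e : G ≃* A × B)

lemma iA_comm (a : A) (b : B) : e.symm (a, 1) * e.symm (1, b) = e.symm (1, b) * e.symm (a, 1) := by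
  rw [← map_mul, ← map_mul]; simp

lemma split (g : G) : g = e.symm ((e g).1, 1) * e.symm (1, (e g).2) := by
  rw [← map_mul]; simp

lemma core (hB : ∀ b, P (e.symm (1, b) : G) = 0) : Subsingleton B := by
  have hP : ∀ g : G, P (e.symm ((e g).1, 1) : G) = P g := by
    intro g
    conv_rhs => rw [split e g]
    rw [Units.val_mul, P_mul_right _ _ (hB _)]
  have hcen : ∀ b, 2 * ((e.symm (1, b) : G) : R).imI = 0 ∧ 2 * ((e.symm (1, b) : G) : R).imJ = 0 ∧
      2 * ((e.symm (1, b) : G) : R).imK = 0 := fun b =>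
    central_of _ (e.symm ((e uI).1, 1)) (e.symm ((e uJ).1, 1)) ((hP uI).trans P_uI)
      ((hP uJ).trans P_uJ) (iA_comm e _ b).symm (iA_comm e _ b).symm
  have hcomm : ∀ b c : B, b * c = c * b := by
    intro b c
    have h := central_comm _ (hcen b).1 (hcen b).2.1 (hcen b).2.2 (e.symm (1, c))
    rw [← map_mul, ← map_mul] at h
    have h' := e.symm.injective h
    simpa using h'
  have hN : ∀ g ∈ N, ∃ c : B, (e g).2 = c * c := by
    intro g hg
    induction hg using Subgroup.closure_induction with
    | mem x hx =>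
      obtain ⟨y, rfl⟩ := hx
      exact ⟨(e y).2, by rw [map_mul]; rfl⟩
    | one => exact ⟨1, by simp⟩
    | mul x y _ _ hx hy =>
      obtain ⟨c, hc⟩ := hx
      obtain ⟨d, hd⟩ := hy
      refine ⟨c * d, ?_⟩
      rw [map_mul, Prod.snd_mul, hc, hd]
      calc c * c * (d * d) = c * (c * d) * d := by group
        _ = c * (d * c) * d := by rw [hcomm c d]
        _ = c * d * (c * d) := by group
    | inv x _ hx =>
      obtain ⟨c, hc⟩ := hx
      exact ⟨c⁻¹, by rw [map_inv, Prod.snd_inv, hc, mul_inv_rev]⟩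
  have hsq : Function.Surjective (fun c : B => c * c) := by
    intro b
    obtain ⟨c, hc⟩ := hN _ (central_mem _ (hcen b).1 (hcen b).2.1 (hcen b).2.2)
    exact ⟨c, by simpa using hc.symm⟩
  have : Finite G := inferInstance
  have : Finite (A × B) := Finite.of_equiv _ e.toEquiv
  have : Finite B := Finite.of_surjective (Prod.snd : A × B → B) Prod.snd_surjective
  have hinj : Function.Injective (fun c : B => c * c) := Finite.injective_iff_surjective.2 hsq
  have hit : ∀ (k : ℕ) (b : B), (fun c : B => c * c)^[k] b = b ^ 2 ^ k := by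
    intro k
    induction k with
    | zero => intro b; simp
    | succ k ih =>
      intro b
      rw [Function.iterate_succ_apply', ih, pow_succ, pow_mul, pow_two]
  refine ⟨fun b c => ?_⟩
  have h1 : ∀ b : B, b = 1 := by
    intro b
    apply (hinj.iterate 8)
    rw [hit, hit, one_pow]
    have h := exponent (e.symm (1, b))
    have h' := congrArg (fun g => (e g).2) h
    simpa using h'
  rw [h1 b, h1 c]

end decomposition

lemma indecomposable : Indecomposable G := by
  constructor
  · refine ⟨uI, 1, fun h => ?_⟩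
    have h1 := P_uI
    rw [h] at h1
    simp [P] at h1
  · rintro A B _ _ ⟨e⟩
    by_cases hB : ∀ b, P (e.symm (1, b) : G) = 0
    · exact Or.inr (core e hB)
    by_cases hA : ∀ a, P (e.symm (a, 1) : G) = 0
    · left
      let e' : G ≃* B × A := e.trans MulEquiv.prodComm
      exact core e' (fun a => hA a)
    exfalso
    push Not at hA hB
    obtain ⟨a, ha⟩ := hA
    obtain ⟨b, hb⟩ := hB
    have hcomm : ∀ a b, ((e.symm (a, 1) : G) : R) * (e.symm (1, b) : G)
        = (e.symm (1, b) : G) * (e.symm (a, 1) : G) := by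
      intro a b
      rw [← Units.val_mul, iA_comm, Units.val_mul]
    have hab : P (e.symm (a, 1) : G) = P (e.symm (1, b) : G) := by
      rcases comm_P _ _ (hcomm a b) with h | h | h
      · exact absurd h ha
      · exact absurd h hb
      · exact h
    have hA' : ∀ a', P (e.symm (a', 1) : G) = 0 ∨
        P (e.symm (a', 1) : G) = P (e.symm (1, b) : G) := by
      intro a'
      rcases comm_P _ _ (hcomm a' b) with h | h | h
      · exact Or.inl h
      · exact absurd h hb
      · exact Or.inr h
    have hB' : ∀ b', P (e.symm (1, b') : G) = 0 ∨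
        P (e.symm (1, b') : G) = P (e.symm (1, b) : G) := by
      intro b'
      rcases comm_P _ _ (hcomm a b') with h | h | h
      · exact absurd h ha
      · exact Or.inl h
      · exact Or.inr (h.symm.trans hab)
    have hall : ∀ g : G, P g = 0 ∨ P g = P (e.symm (1, b) : G) := by
      intro g
      rw [split e g, Units.val_mul]
      rcases hA' (e g).1 with h1 | h1
      · rw [P_mul_left _ _ h1]; exact hB' _
      · rcases hB' (e g).2 with h2 | h2
        · rw [P_mul_right _ _ h2]; exact Or.inr h1
        · left; exact P_mul_same _ _ (h1.trans h2.symm)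
    have hI := hall uI
    have hJ := hall uJ
    rw [P_uI] at hI
    rw [P_uJ] at hJ
    have hI' := hI.resolve_left (by decide)
    have hJ' := hJ.resolve_left (by decide)
    exact absurd (hI'.trans hJ'.symm) (by decide)

lemma isPGroup : IsPGroup 2 G := fun g => ⟨8, by norm_num; exact exponent g⟩

lemma u5_pow (k : ℕ) : ((u5 ^ k : G) : R) = mk (5 ^ k) 0 0 0 := by
  induction k with
  | zero => ext <;> simp
  | succ k ih =>
    rw [pow_succ, Units.val_mul, ih]
    ext <;> simp [u5, pow_succ]

lemma not_realizable : ¬ Realizable G 2 := by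
  rintro ⟨S, _, _, _, ⟨e⟩⟩
  have h64 : u5 ^ 64 = 1 := by
    apply Units.ext
    rw [u5_pow]
    ext
    · simp only [mk_re, Units.val_one, re_one]; decide
    all_goals simp
  have h32 : u5 ^ 32 ≠ 1 := by
    intro h
    have h1 := congrArg (fun u : G => (u : R).re) h
    simp only [u5_pow, mk_re, Units.val_one, re_one] at h1
    exact absurd h1 (by decide)
  have h := char2_units (e.symm u5) (by rw [← map_pow, h64, map_one])
    (by
      intro h
      rw [← map_pow] at h
      exact h32 ((MulEquiv.map_eq_one_iff e.symm).1 h))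
  rw [Nat.card_congr e.toEquiv] at h
  exact absurd card_G (not_lt.2 h)

/-- **Result.** There is an indecomposable finite `2`-group which is the unit group of a finite ring
of characteristic `2 ^ 8` but is not the unit group of any finite ring of characteristic `2`. -/
theorem result : ∃ (G : Type) (_ : Group G), Finite G ∧ IsPGroup 2 G ∧ Indecomposable G ∧
    (∃ m : ℕ, 2 ≤ m ∧ Realizable G (2 ^ m)) ∧ ¬ Realizable G 2 :=
  ⟨G, inferInstance, inferInstance, isPGroup, indecomposable,
    ⟨8, by norm_num, R, inferInstance, inferInstance, inferInstanceAs (CharP R 256),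
      ⟨MulEquiv.refl _⟩⟩, not_realizable⟩

end Pool.Agent.Results.MP_aafbbc_al.LipschitzUnits
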